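import Mathlib
import Pool.Agent.N893.TB.P4
import Pool.Agent.N740.HK.Sch

/-!
# The bias of consecutive twin pairs modulo 4 in random models of the primes

The integers are decided one after the other; the multiples of the primes of a finite set `Q`, which contains `2`
and `3`, are never chosen, and the conditional probability of choosing an integer `n + 1` which is not such a
multiple, given the decisions up to `n`, is `λ_n`, where `λ` is a random, non-negative and non-increasing sequence with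
`λ_n log n → c = ∏_{p ∈ Q} (1 - 1 / p)⁻¹` almost surely.  (For instance: independent decisions with the probabilities
`min (1, c / log n)`, the model of Cramér and Granville.)

In every such model, almost surely, with the notation of the problem, for `a ≠ b` in `{1, 3}`,

`(δ₂(x; 4; a | b) - 1 / 2) log² x → c² / 4` and `(δ₂(x; 4; a | a) - 1 / 2) log² x → - c² / 4`.

So in the models the bias which is observed numerically, `δ₂(x; 4; 1 | 3) > 1 / 2 > δ₂(x; 4; 1 | 1)`, holds for all
large `x`, and it is of the exact order `1 / log² x`.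

Idea.  Let `T k` be the indicator of the twin pair `6 k + 5, 6 k + 7` and `h k = ± 1 / 2`, with the sign `+` if and only
if the last pair before the index `k` has an index of the other parity.  Then `h (k + 1) + h k = T k (h k + 1 / 2)`.
The number of pairs at which the class changes, minus half of the number of the pairs, is `∑ T k h k`, which up to a
martingale is `∑ λ² a k h k`, where `a` is the indicator of the indices which are admissible for `Q`.  It has an ODD
period, so `a k = β k + β (k + 1)` with a periodic `β`, and a summation by parts turns the sum into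
`∑ λ² β (k + 1) T k (h k + 1 / 2)`, that is `(1 / 2) ∑ λ⁴ a k β (k + 1)` up to smaller terms; and the mean value of
`a k β (k + 1)` is one half of that of `a k`, whatever `Q` is.

Written with helper26 (CORED), helper99 (PER), helper100 (BETA), helper227 (COMBA), helper300 (COMBB), helper584
(COREN), helper727 (SUMLOG), helper942 (SHIFT), helper946 (WSUM), helper985 (FINAL); the model library is by
helper528 and helper740.
-/

set_option autoImplicit false

open MeasureTheory Filter Set ProbabilityTheory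
open scoped Topology

namespace Pool.Agent.Results.MP_74f661_nt.BiasInModels

variable {Ω : Type}

/-- the conditional probability of choosing `n + 1` given the decisions up to `n` -/
noncomputable def cp [m : MeasurableSpace Ω] (μ : Measure Ω) (ℱ : Filtration ℕ m) (A : ℕ → Set Ω)
    (n : ℕ) (ω : Ω) : ℝ := (μ[(A (n + 1)).indicator (fun _ => (1 : ℝ)) | ℱ n]) ω

/-- `A n` is the event that `n` is chosen; adapted to `ℱ`; multiples of the primes in `Q` are not chosen; there is a
random sequence `lam`, non-negative and non-increasing from the index `2` on, such that the conditional probability of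
`A (n + 1)`, `n ≥ 2`, is `lam n` if no `p ∈ Q` divides `n + 1`; this conditional probability, times `log n`, tends to
`∏_{p ∈ Q} (1 - 1 / p)⁻¹` along these `n`, almost surely -/
def MonotoneSievedModel [m : MeasurableSpace Ω] (μ : Measure Ω) (ℱ : Filtration ℕ m) (A : ℕ → Set Ω)
    (Q : Finset ℕ) : Prop :=
  (∀ n, MeasurableSet[ℱ n] (A n)) ∧ (∀ n, (∃ p ∈ Q, p ∣ n) → A n = ∅) ∧
  (∃ lam : ℕ → Ω → ℝ, ∀ᵐ ω ∂μ, ∀ n : ℕ, 2 ≤ n → 0 ≤ lam n ω ∧ lam (n + 1) ω ≤ lam n ω ∧
    ((∀ p ∈ Q, ¬ p ∣ n + 1) → cp μ ℱ A n ω = lam n ω)) ∧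
  ∀ᵐ ω ∂μ, Tendsto (fun n : ℕ => cp μ ℱ A n ω * Real.log n)
    (atTop ⊓ 𝓟 {n : ℕ | ∀ p ∈ Q, ¬ p ∣ n + 1}) (𝓝 (∏ p ∈ Q, (1 - 1 / (p : ℝ))⁻¹))

/-- The model of Cramér and Granville: independent events, multiples of the primes of `Q` are never
chosen, the other `n ≥ 3` are chosen with probability `∏_{p ∈ Q} (1 - 1 / p)⁻¹ / log n` (at most `1`). -/
def GranvilleModel [MeasurableSpace Ω] (μ : Measure Ω) (A : ℕ → Set Ω) (Q : Finset ℕ) : Prop :=
  (∀ n, MeasurableSet (A n)) ∧ iIndepSet A μ ∧ (∀ n, (∃ p ∈ Q, p ∣ n) → A n = ∅) ∧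
  ∀ n : ℕ, 3 ≤ n → (∀ p ∈ Q, ¬ p ∣ n) →
    μ (A n) = ENNReal.ofReal (min 1 ((∏ p ∈ Q, (1 - 1 / (p : ℝ))⁻¹) / Real.log n))

/-- `p` is the first member of a twin pair of elements of `S` -/
def First (S : Set ℕ) (p : ℕ) : Prop := p ∈ S ∧ p + 2 ∈ S

/-- `p'` is the first member of the twin pair which follows the one of `p` -/
def Next (S : Set ℕ) (p p' : ℕ) : Prop := p < p' ∧ First S p' ∧ ∀ m, p < m → m < p' → ¬ First S m

open Classical in
/-- `π₂(x; 4; a)`: the number of the first members `p ≤ x` with `p ≡ a (mod 4)` -/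
noncomputable def pi2 (S : Set ℕ) (x a : ℕ) : ℕ :=
  ((Finset.range (x + 1)).filter fun p => First S p ∧ p % 4 = a).card

open Classical in
/-- `π₂(x; 4; a | b)`: the number of the first members `p ≤ x` with `p ≡ a (mod 4)` for which the first member of
the following pair is `≡ b (mod 4)` -/
noncomputable def pi2next (S : Set ℕ) (x a b : ℕ) : ℕ :=
  ((Finset.range (x + 1)).filter fun p => First S p ∧ p % 4 = a ∧ ∃ p', Next S p p' ∧ p' % 4 = b).card

/-- `δ₂(x; 4; a | b)` -/
noncomputable def delta (S : Set ℕ) (x a b : ℕ) : ℝ := (pi2next S x a b : ℝ) / pi2 S x a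

lemma pi2_eq (S : Set ℕ) (x a : ℕ) : pi2 S x a = Pool.Agent.N893.TB.pi2 S x a := rfl

lemma pi2next_eq (S : Set ℕ) (x a b : ℕ) : pi2next S x a b = Pool.Agent.N893.TB.pi2next S x a b := rfl

end Pool.Agent.Results.MP_74f661_nt.BiasInModels

open Pool.Agent.Results.MP_74f661_nt.BiasInModels Pool.Agent.N740.HK Pool.Agent.R528.RM Pool.Agent.N893.TB

/-- The model of Cramér and Granville is a monotone sieved model for some filtration.  In every monotone sieved
model with `2, 3 ∈ Q`, almost surely: there are infinitely many twin pairs, and for `a ≠ b` in `{1, 3}`, with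
`c = ∏_{p ∈ Q} (1 - 1 / p)⁻¹`, `(δ₂(x; 4; a | b) - 1 / 2) log² x → c² / 4` and
`(δ₂(x; 4; a | a) - 1 / 2) log² x → - c² / 4`; in particular `δ₂(x; 4; a | a) < 1 / 2 < δ₂(x; 4; a | b)` for all
large `x`. -/
theorem Pool.Agent.Results.MP_74f661_nt.BiasInModels.result
    {Ω : Type} [m : MeasurableSpace Ω] (μ : Measure Ω) [IsProbabilityMeasure μ] (A : ℕ → Set Ω)
    (Q : Finset ℕ) (hQ : ∀ p ∈ Q, p.Prime) :
    (GranvilleModel μ A Q → ∃ ℱ : Filtration ℕ m, MonotoneSievedModel μ ℱ A Q) ∧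
    (2 ∈ Q → 3 ∈ Q → ∀ ℱ : Filtration ℕ m, MonotoneSievedModel μ ℱ A Q → ∀ᵐ ω ∂μ,
      {p | ω ∈ A p ∧ ω ∈ A (p + 2)}.Infinite ∧
      ∀ a ∈ ({1, 3} : Set ℕ), ∀ b ∈ ({1, 3} : Set ℕ), a ≠ b →
        Tendsto (fun x : ℕ => (delta {k | ω ∈ A k} x a b - 1 / 2) * Real.log x ^ 2) atTop
          (𝓝 ((∏ p ∈ Q, (1 - 1 / (p : ℝ))⁻¹) ^ 2 / 4)) ∧
        Tendsto (fun x : ℕ => (delta {k | ω ∈ A k} x a a - 1 / 2) * Real.log x ^ 2) atTop
          (𝓝 (-((∏ p ∈ Q, (1 - 1 / (p : ℝ))⁻¹) ^ 2 / 4))) ∧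
        ∀ᶠ x : ℕ in atTop, delta {k | ω ∈ A k} x a a < 1 / 2 ∧ 1 / 2 < delta {k | ω ∈ A k} x a b) := by
  classical
  have hc0 : 0 < ∏ p ∈ Q, (1 - 1 / (p : ℝ))⁻¹ := Finset.prod_pos fun p hp => by
    have hp2 : (2 : ℝ) ≤ p := by exact_mod_cast (hQ p hp).two_le
    have h1 : 1 / (p : ℝ) ≤ 1 / 2 := one_div_le_one_div_of_le (by norm_num) hp2
    exact inv_pos.2 (by linarith)
  constructor
  · rintro ⟨hA, hi, hcop, hp⟩
    have h1 : ∀ᵐ ω ∂μ, ∀ n, (μ[(A (n + 1)).indicator (fun _ => (1 : ℝ)) | gen hA n]) ω =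
        (μ (A (n + 1))).toReal := ae_all_iff.2 fun n => dens_gen hA hi n
    set c : ℝ := ∏ p ∈ Q, (1 - 1 / (p : ℝ))⁻¹ with hc
    have hpr : ∀ n : ℕ, 2 ≤ n → (∀ p ∈ Q, ¬ p ∣ n + 1) → (μ (A (n + 1))).toReal = min 1 (c / Real.log ((n + 1 : ℕ) : ℝ)) := by
      intro n hn hn2
      have hn' : (2 : ℝ) ≤ n := by exact_mod_cast hn
      have hl : 0 < Real.log ((n + 1 : ℕ) : ℝ) := Real.log_pos (by push_cast; linarith)
      rw [hp (n + 1) (by omega) hn2, ENNReal.toReal_ofReal (le_min zero_le_one (by positivity))]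
    refine ⟨gen hA, gen_meas hA, hcop, ⟨fun n _ => min 1 (c / Real.log ((n + 1 : ℕ) : ℝ)), ?_⟩, ?_⟩
    · filter_upwards [h1] with ω hω n hn
      have hn' : (2 : ℝ) ≤ n := by exact_mod_cast hn
      have hl : 0 < Real.log ((n + 1 : ℕ) : ℝ) := Real.log_pos (by push_cast; linarith)
      refine ⟨le_min zero_le_one (by positivity), min_le_min_left _ ?_, fun hn2 => ?_⟩
      · have h2 : Real.log ((n + 1 : ℕ) : ℝ) ≤ Real.log ((n + 1 + 1 : ℕ) : ℝ) :=
          Real.log_le_log (by positivity) (by push_cast; linarith)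
        gcongr
      · show (μ[(A (n + 1)).indicator (fun _ => (1 : ℝ)) | gen hA n]) ω = _
        rw [hω, hpr n hn hn2]
    · filter_upwards [h1] with ω hω
      have h2 : Tendsto (fun n : ℕ => c / (Real.log ((n + 1 : ℕ) : ℝ) / Real.log n)) atTop (𝓝 (c / 1)) :=
        tendsto_const_nhds.div log_succ_ratio one_ne_zero
      rw [div_one] at h2
      refine (h2.mono_left (inf_le_left : atTop ⊓ 𝓟 {n : ℕ | ∀ p ∈ Q, ¬ p ∣ n + 1} ≤ atTop)).congr' ?_
      rw [EventuallyEq, eventually_inf_principal]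
      filter_upwards [eventually_ge_atTop 2, tendsto_log.eventually_ge_atTop c] with n hn hn2 hn3
      have hn' : (2 : ℝ) ≤ n := by exact_mod_cast hn
      have hlog : Real.log (n : ℝ) ≤ Real.log ((n + 1 : ℕ) : ℝ) :=
        Real.log_le_log (by linarith) (by push_cast; linarith)
      have hl0 : 0 < Real.log (n : ℝ) := Real.log_pos (by linarith)
      have hl : 0 < Real.log ((n + 1 : ℕ) : ℝ) := hl0.trans_le hlog
      show _ = (μ[(A (n + 1)).indicator (fun _ => (1 : ℝ)) | gen hA n]) ω * Real.log n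
      rw [hω, hpr n hn hn3, min_eq_right]
      · field_simp
      · rw [div_le_one hl]
        linarith
  · rintro hQ2 hQ3 ℱ ⟨hA, hcop, ⟨lam, hlam⟩, hd⟩
    filter_upwards [inputs (μ := μ) hQ hA hcop hlam hd] with ω hω
    rw [Tw_eq] at hω
    set S : Set ℕ := {k | ω ∈ A k} with hS
    have hS6 : ∀ n ∈ S, n.Coprime 6 := by
      intro n hn
      have h2 : ¬ 2 ∣ n := fun h => by
        have h3 : ω ∈ A n := hn
        rw [hcop n ⟨2, hQ2, h⟩] at h3
        exact h3
      have h3 : ¬ 3 ∣ n := fun h => by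
        have h3 : ω ∈ A n := hn
        rw [hcop n ⟨3, hQ3, h⟩] at h3
        exact h3
      have h4 : n.Coprime 2 := (Nat.coprime_comm.1 ((Nat.prime_two.coprime_iff_not_dvd).2 h2))
      have h5 : n.Coprime 3 := (Nat.coprime_comm.1 ((Nat.prime_three.coprime_iff_not_dvd).2 h3))
      have h6 := Nat.Coprime.mul_right h4 h5
      exact h6
    obtain ⟨hinf, l13, l31, l11, l33⟩ := limits hS6 hc0 (aQ_sum hQ) hω
    have hlog : ∀ᶠ x : ℕ in atTop, 0 < Real.log (x : ℝ) ^ 2 := by
      filter_upwards [(Real.tendsto_log_atTop.comp (tendsto_natCast_atTop_atTop (R := ℝ))).eventually_gt_atTop 0] with x hx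
      exact pow_pos hx 2
    have hc2 : 0 < (∏ p ∈ Q, (1 - 1 / (p : ℝ))⁻¹) ^ 2 / 4 := by positivity
    have pos : ∀ f : ℕ → ℝ, Tendsto (fun x : ℕ => (f x - 1 / 2) * Real.log x ^ 2) atTop
        (𝓝 ((∏ p ∈ Q, (1 - 1 / (p : ℝ))⁻¹) ^ 2 / 4)) → ∀ᶠ x : ℕ in atTop, 1 / 2 < f x := by
      intro f hf
      filter_upwards [hf.eventually (eventually_gt_nhds hc2), hlog] with x hx hl
      by_contra hcon
      have : (f x - 1 / 2) * Real.log x ^ 2 ≤ 0 := mul_nonpos_of_nonpos_of_nonneg (by linarith) hl.le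
      linarith
    have neg : ∀ f : ℕ → ℝ, Tendsto (fun x : ℕ => (f x - 1 / 2) * Real.log x ^ 2) atTop
        (𝓝 (-((∏ p ∈ Q, (1 - 1 / (p : ℝ))⁻¹) ^ 2 / 4))) → ∀ᶠ x : ℕ in atTop, f x < 1 / 2 := by
      intro f hf
      filter_upwards [hf.eventually (eventually_lt_nhds (neg_lt_zero.2 hc2)), hlog] with x hx hl
      by_contra hcon
      have : 0 ≤ (f x - 1 / 2) * Real.log x ^ 2 := mul_nonneg (by linarith) hl.le
      linarith
    refine ⟨hinf, fun a ha b hb hab => ?_⟩
    have ha' : a = 1 ∨ a = 3 := ha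
    have hb' : b = 1 ∨ b = 3 := hb
    rcases ha' with rfl | rfl <;> rcases hb' with rfl | rfl
    · exact absurd rfl hab
    · exact ⟨l13, l11, (neg _ l11).and (pos _ l13)⟩
    · exact ⟨l31, l33, (neg _ l33).and (pos _ l31)⟩
    · exact absurd rfl hab
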