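import Mathlib
import Pool.Agent.N638.TW.Main
import Pool.Agent.N740.HK.Sch

/-!
# Residues of consecutive twin pairs in all sieved sequential random models of the primes

The integers are decided one after the other; the multiples of the primes of a finite set `Q`, which
contains `2` and `3`, are never chosen and the conditional probability of choosing an integer `n + 1` which is
not such a multiple, given the decisions up to `n`, is asymptotic to `∏_{p ∈ Q} (1 - 1 / p)⁻¹ / log n`, almost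
surely.  No independence and no rate of convergence are assumed.  In every such model, almost surely, there are
infinitely many twin pairs and the residues modulo 4 (and modulo every `q`) of the successive twin pairs behave
like independent and equidistributed ones.

The plan and the library for the models (`Pool/Agent/N740/HK`, `Pool/Agent/R528/RM`) are by helper740 and
helper528.
-/

set_option autoImplicit false

open MeasureTheory Filter Set ProbabilityTheory
open scoped Topology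

namespace Pool.Agent.Results.MP_74f661_nt.SequentialModels

variable {Ω : Type}

/-- `A n` is the event that `n` is chosen; adapted to `ℱ`; multiples of the primes in `Q` are not
chosen; the conditional probability of `A (n + 1)` given `ℱ n`, times `log n`, tends almost surely to
`∏_{p ∈ Q} (1 - 1 / p)⁻¹` along the `n` such that no `p ∈ Q` divides `n + 1` -/
def SievedModel [m : MeasurableSpace Ω] (μ : Measure Ω) (ℱ : Filtration ℕ m) (A : ℕ → Set Ω)
    (Q : Finset ℕ) : Prop :=
  (∀ n, MeasurableSet[ℱ n] (A n)) ∧ (∀ n, (∃ p ∈ Q, p ∣ n) → A n = ∅) ∧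
  ∀ᵐ ω ∂μ, Tendsto (fun n : ℕ => (μ[(A (n + 1)).indicator (fun _ => (1 : ℝ)) | ℱ n]) ω * Real.log n)
    (atTop ⊓ 𝓟 {n : ℕ | ∀ p ∈ Q, ¬ p ∣ n + 1}) (𝓝 (∏ p ∈ Q, (1 - 1 / (p : ℝ))⁻¹))

/-- The model of Cramér and Granville: independent events, multiples of the primes of `Q` are never
chosen, the other `n ≥ 3` are chosen with probability `∏_{p ∈ Q} (1 - 1 / p)⁻¹ / log n` (at most `1`). -/
def GranvilleModel [MeasurableSpace Ω] (μ : Measure Ω) (A : ℕ → Set Ω) (Q : Finset ℕ) : Prop :=
  (∀ n, MeasurableSet (A n)) ∧ iIndepSet A μ ∧ (∀ n, (∃ p ∈ Q, p ∣ n) → A n = ∅) ∧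
  ∀ n : ℕ, 3 ≤ n → (∀ p ∈ Q, ¬ p ∣ n) →
    μ (A n) = ENNReal.ofReal (min 1 ((∏ p ∈ Q, (1 - 1 / (p : ℝ))⁻¹) / Real.log n))

/-- the first member of the twin pair number `n` (from `0` on) of `S` -/
noncomputable def twin (S : Set ℕ) (n : ℕ) : ℕ := Nat.nth (fun p => p ∈ S ∧ p + 2 ∈ S) n

/-- `π₂(x; 4; a)` -/
noncomputable def pi2 (S : Set ℕ) (x : ℝ) (a : ℕ) : ℕ := {n : ℕ | (twin S n : ℝ) ≤ x ∧ twin S n % 4 = a}.ncard

/-- `π₂(x; 4; a | b)` -/
noncomputable def pi2next (S : Set ℕ) (x : ℝ) (a b : ℕ) : ℕ :=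
  {n : ℕ | (twin S n : ℝ) ≤ x ∧ twin S n % 4 = a ∧ twin S (n + 1) % 4 = b}.ncard

/-- `δ₂(x; 4; a | b)` -/
noncomputable def delta (S : Set ℕ) (x : ℝ) (a b : ℕ) : ℝ := (pi2next S x a b : ℝ) / pi2 S x a

/-- the number of the twin pairs with first member at most `x` from which on the first members of `k`
successive pairs have the residues `e 0, ..., e (k - 1)` modulo `q`; for `k = 0` the number of all pairs -/
noncomputable def patterns (S : Set ℕ) (q k : ℕ) (e : Fin k → ℕ) (x : ℝ) : ℕ :=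
  {n : ℕ | (twin S n : ℝ) ≤ x ∧ ∀ i : Fin k, twin S (n + i) % q = e i}.ncard

open Classical in
/-- the share of the residue class `a` modulo `q` among the `t` such that no `p ∈ Q` divides `t` or `t + 2` -/
noncomputable def share (Q : Finset ℕ) (q a : ℕ) : ℝ :=
  (((Finset.range (q * ∏ p ∈ Q, p)).filter fun t => t % q = a ∧ ∀ p ∈ Q, ¬ p ∣ t ∧ ¬ p ∣ t + 2).card : ℝ) /
    ((Finset.range (q * ∏ p ∈ Q, p)).filter fun t => ∀ p ∈ Q, ¬ p ∣ t ∧ ¬ p ∣ t + 2).card

open Pool.Agent.N638.TW

lemma share_eq (Q : Finset ℕ) (hQ : ∀ p ∈ Q, p.Prime) (q a : ℕ) : share Q q a = nu (∏ p ∈ Q, p) q a := by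
  unfold share nu
  simp_rw [← good2_iff Q hQ]

/-- counting functions as sums over the first indices -/
lemma ncard_eq {p : ℕ → Prop} [DecidablePred p] (hp : (Set.ofPred p).Infinite) {x : ℝ} (hx : 0 ≤ x) (φ : ℕ → Prop)
    [DecidablePred φ] :
    (({n : ℕ | (Nat.nth p n : ℝ) ≤ x ∧ φ n}.ncard : ℕ) : ℝ) =
      ∑ n ∈ Finset.range (Nat.count p (⌊x⌋₊ + 1)), if φ n then 1 else 0 := by
  rw [Finset.sum_boole]
  congr 1
  rw [← Set.ncard_coe_finset]
  congr 1
  ext n
  simp only [mem_ofPred_eq, Finset.coe_filter, Finset.mem_range]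
  rw [Nat.lt_nth_iff_count_lt hp, ← Nat.le_floor_iff hx, Nat.lt_succ_iff]

lemma patterns_G {S : Set ℕ} (hS : (Set.ofPred fun p => p ∈ S ∧ p + 2 ∈ S).Infinite) (q k : ℕ) (e : Fin k → ℕ)
    {x : ℝ} (hx : 0 ≤ x) [DecidablePred fun p => p ∈ S ∧ p + 2 ∈ S] :
    (patterns S q k e x : ℝ) = G (fun p => p ∈ S ∧ p + 2 ∈ S) q (ext e) k
      (Nat.count (fun p => p ∈ S ∧ p + 2 ∈ S) (⌊x⌋₊ + 1)) := by
  classical
  unfold patterns twin G
  rw [ncard_eq hS hx (fun n => ∀ i : Fin k, Nat.nth (fun p => p ∈ S ∧ p + 2 ∈ S) (n + i) % q = e i)]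
  refine Finset.sum_congr rfl fun n _ => ?_
  have h1 : (∀ i : Fin k, Nat.nth (fun p => p ∈ S ∧ p + 2 ∈ S) (n + i) % q = e i) ↔
      ∀ i < k, Nat.nth (fun p => p ∈ S ∧ p + 2 ∈ S) (n + i) % q = ext e i := by
    constructor
    · intro h i hi
      unfold N638.TW.ext
      rw [dif_pos hi]
      exact h ⟨i, hi⟩
    · intro h i
      have := h i i.2
      unfold N638.TW.ext at this
      rwa [dif_pos i.2] at this
  simp only [h1]

end Pool.Agent.Results.MP_74f661_nt.SequentialModels

open Pool.Agent.Results.MP_74f661_nt.SequentialModels Pool.Agent.N740.HK Pool.Agent.R528.RM Pool.Agent.N638.TW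

/-- The model of Cramér and Granville is a sieved model for some filtration.  In every sieved model with
`2, 3 ∈ Q`, almost surely: (1) there are infinitely many twin pairs; (2) for all `a, b ∈ {1, 3}` the ratio
`δ₂(x; 4; a | b)` tends to `1 / 2`; (3) for every modulus `q ≥ 1`, every `k` and all residues
`e 0, ..., e (k - 1)` the frequency, among the twin pairs with first member at most `x`, of those from which on
the first members have the residues `e 0, ..., e (k - 1)` modulo `q`, tends to the product of the shares of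
these classes; (4) for `q = 4` and residues `1, 3` this limit is `(1 / 2) ^ k`. -/
theorem Pool.Agent.Results.MP_74f661_nt.SequentialModels.result
    {Ω : Type} [m : MeasurableSpace Ω] (μ : Measure Ω) [IsProbabilityMeasure μ] (A : ℕ → Set Ω)
    (Q : Finset ℕ) (hQ : ∀ p ∈ Q, p.Prime) :
    (GranvilleModel μ A Q → ∃ ℱ : Filtration ℕ m, SievedModel μ ℱ A Q) ∧
    (2 ∈ Q → 3 ∈ Q → ∀ ℱ : Filtration ℕ m, SievedModel μ ℱ A Q → ∀ᵐ ω ∂μ,
      {p | ω ∈ A p ∧ ω ∈ A (p + 2)}.Infinite ∧
      (∀ a ∈ ({1, 3} : Set ℕ), ∀ b ∈ ({1, 3} : Set ℕ),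
        Tendsto (fun x : ℝ => delta {k | ω ∈ A k} x a b) atTop (𝓝 (1 / 2))) ∧
      (∀ q : ℕ, 0 < q → ∀ k : ℕ, ∀ e : Fin k → ℕ,
        Tendsto (fun x : ℝ => (patterns {k | ω ∈ A k} q k e x : ℝ) / patterns {k | ω ∈ A k} q 0 ![] x) atTop
          (𝓝 (∏ i, share Q q (e i)))) ∧
      (∀ k : ℕ, ∀ e : Fin k → ℕ, (∀ i, e i = 1 ∨ e i = 3) →
        Tendsto (fun x : ℝ => (patterns {k | ω ∈ A k} 4 k e x : ℝ) / patterns {k | ω ∈ A k} 4 0 ![] x) atTop
          (𝓝 ((1 / 2) ^ k)))) := by
  classical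
  constructor
  · rintro ⟨hA, hi, hcop, hp⟩
    refine ⟨gen hA, gen_meas hA, hcop, ?_⟩
    have h1 : ∀ᵐ ω ∂μ, ∀ n, (μ[(A (n + 1)).indicator (fun _ => (1 : ℝ)) | gen hA n]) ω =
        (μ (A (n + 1))).toReal := ae_all_iff.2 fun n => dens_gen hA hi n
    set c : ℝ := ∏ p ∈ Q, (1 - 1 / (p : ℝ))⁻¹ with hc
    have hc0 : 0 < c := Finset.prod_pos fun p hp => by
      have hp2 : (2 : ℝ) ≤ p := by exact_mod_cast (hQ p hp).two_le
      have h1 : 1 / (p : ℝ) ≤ 1 / 2 := one_div_le_one_div_of_le (by norm_num) hp2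
      exact inv_pos.2 (by linarith)
    filter_upwards [h1] with ω hω
    have h2 : Tendsto (fun n : ℕ => c / (Real.log ((n + 1 : ℕ) : ℝ) / Real.log n)) atTop (𝓝 (c / 1)) :=
      tendsto_const_nhds.div log_succ_ratio one_ne_zero
    rw [div_one] at h2
    refine (h2.mono_left (inf_le_left : atTop ⊓ 𝓟 {n : ℕ | ∀ p ∈ Q, ¬ p ∣ n + 1} ≤ atTop)).congr' ?_
    rw [EventuallyEq, eventually_inf_principal]
    filter_upwards [eventually_ge_atTop 2, tendsto_log.eventually_ge_atTop c] with n hn hn2 hn3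
    have hn' : (2 : ℝ) ≤ n := by exact_mod_cast hn
    have hlog : Real.log (n : ℝ) ≤ Real.log ((n + 1 : ℕ) : ℝ) :=
      Real.log_le_log (by linarith) (by push_cast; linarith)
    have hl0 : 0 < Real.log (n : ℝ) := Real.log_pos (by linarith)
    have hl : 0 < Real.log ((n + 1 : ℕ) : ℝ) := hl0.trans_le hlog
    rw [hω, hp (n + 1) (by omega) hn3, ENNReal.toReal_ofReal (le_min zero_le_one (by positivity)), min_eq_right]
    · field_simp
    · rw [div_le_one hl]
      linarith
  · rintro hQ2 hQ3 ℱ ⟨hA, hcop, hd⟩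
    filter_upwards [main (μ := μ) hA Q hQ hQ2 hQ3 hcop hd] with ω hω
    obtain ⟨hinf, hG⟩ := hω
    set S : Set ℕ := {k | ω ∈ A k} with hS
    have hinf' : (Set.ofPred fun p => p ∈ S ∧ p + 2 ∈ S).Infinite := hinf
    have hcount : Tendsto (fun x : ℝ => Nat.count (fun p => p ∈ S ∧ p + 2 ∈ S) (⌊x⌋₊ + 1)) atTop atTop := by
      have h1 : Tendsto (fun N => Nat.count (fun p => p ∈ S ∧ p + 2 ∈ S) N) atTop atTop := by
        refine tendsto_atTop_atTop.2 fun b => ⟨Nat.nth (fun p => p ∈ S ∧ p + 2 ∈ S) b, fun a ha => ?_⟩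
        rw [← Nat.count_nth_of_infinite hinf' b]
        exact Nat.count_monotone _ ha
      exact h1.comp ((tendsto_add_atTop_nat 1).comp tendsto_nat_floor_atTop)
    have hpat : ∀ q : ℕ, 0 < q → ∀ k : ℕ, ∀ e : Fin k → ℕ,
        Tendsto (fun x : ℝ => (patterns S q k e x : ℝ) / patterns S q 0 ![] x) atTop
          (𝓝 (∏ i, share Q q (e i))) := by
      intro q hq k e
      have h1 := (hG q hq k e).comp hcount
      simp_rw [← share_eq Q hQ] at h1
      refine h1.congr' ?_
      filter_upwards [eventually_ge_atTop 0] with x hx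
      simp only [Function.comp_apply]
      rw [patterns_G hinf' q k e hx, patterns_G hinf' q 0 ![] hx]
      congr 1
      unfold G
      simp
    have h4 : ∀ a, a = 1 ∨ a = 3 → share Q 4 a = 1 / 2 := by
      intro a ha
      have h5 := nu_four (W_mod Q hQ hQ2)
      rw [share_eq Q hQ]
      rcases ha with rfl | rfl
      · exact h5.1
      · exact h5.2
    have hpat4 : ∀ k : ℕ, ∀ e : Fin k → ℕ, (∀ i, e i = 1 ∨ e i = 3) →
        Tendsto (fun x : ℝ => (patterns S 4 k e x : ℝ) / patterns S 4 0 ![] x) atTop (𝓝 ((1 / 2) ^ k)) := by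
      intro k e he
      have h1 := hpat 4 (by norm_num) k e
      have h2 : ∏ i, share Q 4 (e i) = (1 / 2) ^ k := by
        rw [Finset.prod_congr rfl fun i _ => h4 (e i) (he i), Finset.prod_const, Finset.card_univ, Fintype.card_fin]
      rwa [h2] at h1
    refine ⟨hinf, fun a ha b hb => ?_, hpat, hpat4⟩
    have ha' : a = 1 ∨ a = 3 := by simpa using ha
    have hb' : b = 1 ∨ b = 3 := by simpa using hb
    have h1 := hpat4 1 ![a] (fun i => by fin_cases i; exact ha')
    have h2 := hpat4 2 ![a, b] (fun i => by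
      fin_cases i
      · exact ha'
      · exact hb')
    have h3 := h2.div h1 (by norm_num)
    have e1 : ((1 : ℝ) / 2) ^ 2 / (1 / 2) ^ 1 = 1 / 2 := by norm_num
    rw [e1] at h3
    have hne : ∀ᶠ x : ℝ in atTop, (patterns S 4 0 ![] x : ℝ) ≠ 0 := by
      filter_upwards [hcount.eventually_gt_atTop 0, eventually_ge_atTop 0] with x hx hx0
      rw [patterns_G hinf' 4 0 ![] hx0]
      unfold G
      simp only [not_lt_zero, IsEmpty.forall_iff, implies_true, if_true, Finset.sum_const, Finset.card_range,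
        nsmul_eq_mul, mul_one]
      exact_mod_cast hx.ne'
    refine h3.congr' ?_
    filter_upwards [hne] with x hx
    show (patterns S 4 2 ![a, b] x : ℝ) / patterns S 4 0 ![] x / ((patterns S 4 1 ![a] x : ℝ) / patterns S 4 0 ![] x) = delta S x a b
    rw [div_div_div_cancel_right₀ hx]
    unfold delta
    congr 2
    · unfold patterns pi2next
      congr 1
      ext n
      simp [Fin.forall_fin_two]
    · unfold patterns pi2
      congr 1
      ext n
      simp
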